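import Pool.Agent.Lib.MP_ab9ad9_lc.All98

/-!
# A Menger subgroup of `ℤ^ℕ` of cardinality `𝔡`, unless `cov(M) < 𝔡 < 𝔠` and `𝔡` is singular

Proof in the new case `𝔡 ≤ cov(M)` (`𝔡` may be singular and smaller than `𝔠`).  Let `D` be the group
of the finitely supported sequences and `A` the group of the sequences `h` such that every `n ≥ 1`
divides almost all `h(m)`.  A point `c` of the Baire space codes integers `a(m)` and truth values
`b(m)`; put `psi(c)(m) = a(m) * (number of i < m with b(i) true)!`.

1. (`meagre_EE`) For `n ≠ 0`, `h ∈ A` and `r : D → ℕ` the set of all `c` such that `n psi(c) + h`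
   agrees with some `d ∈ D` on `[0, r(d))` is open and dense: beyond a finite part of `c` continue by
   `b = false` and, as soon as `n` times the current factorial divides all `h(m)`, by
   `a(m) = - h(m) / (n * factorial)`.
2. (`exists_dom`) There are `r_j : D → ℕ` (`j < 𝔡`) such that every `s : D → ℕ` is everywhere below
   one of them, because `D` is countable.
3. (`exists_seq`) Choose `c_i` (`i < 𝔡`) outside fewer than `𝔡` meager sets: the sets of step 1 for
   all `n ≠ 0`, `r_j` with `j ≤ i` and all `h` in the group `G_i` generated by `D` and the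
   `psi(c_j)`, `j < i`; moreover `b` is infinitely often true, so that `psi(c_i) ∈ A`, and
   `psi(c_i)` is not in `G_i`.
4. (`exists_group`) Let `G` be generated by `D` and all `psi(c_i)`.  An open set `U` that contains `D`
   contains for some `j` all `z` that agree with some `d ∈ D` on `[0, r_j(d))`.  An element of `G`
   outside `G_j` is `n psi(c_i) + h` with `n ≠ 0`, `i ≥ j`, `h ∈ G_i`, hence it is in `U`.
5. (`menger_of_concentrated`) Sets of cardinality less than `𝔡` are Menger, so `G` is Menger.

Known cases, proved here as well: `𝔡` regular (`exists_menger_reg`: the group generated by the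
characteristic functions of `𝔡` infinite sets with longer and longer gaps, taken along a filter) and
`𝔡 = 𝔠` (`menger_BB`: the bounded sequences).
-/

set_option autoImplicit false

open Cardinal

namespace Pool.Agent.Results.MP_ab9ad9_lc.UnlessSingular

open Pool.Agent.Lib.MP_ab9ad9_lc

/-- There is a subgroup of `ℤ^ℕ` of cardinality `𝔡` with the Menger property, or
`cov(M) < 𝔡 < 𝔠` and `𝔡` is singular. -/
theorem result :
    (∃ G : AddSubgroup (ℕ → ℤ), #G = dnum ∧ Menger G) ∨
      (covM < dnum ∧ dnum < 𝔠 ∧ ¬ dnum.IsRegular) :=
  menger_or

end Pool.Agent.Results.MP_ab9ad9_lc.UnlessSingular
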